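import Pool.Agent.V1114.Theta.Main

/-!
The theta graph with three paths of length three is metrizable.
-/

namespace Pool.Agent.Results.MP_d7339e_co.ThetaThreeThreeThree

open Pool.Agent.V1114.Theta

/-- Every consistent path system of the theta graph with path lengths `3, 3, 3` is induced by
positive edge weights. -/
theorem result : Metrizable (thetaGraph fun _ => 3) :=
  metrizable_three

end Pool.Agent.Results.MP_d7339e_co.ThetaThreeThreeThree
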